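import Pool.Agent.Q260.KK.Spec

set_option autoImplicit false

namespace Pool.Agent.Q198.KK

open Filter Topology MeasureTheory
open Pool.Agent.Q260.KK

lemma gam (k : ℕ) : Real.Gamma (k + 1 / 2) = ((2 * k).factorial : ℝ) * Real.sqrt Real.pi / (4 ^ k * k.factorial) := by
  induction k with
  | zero => simp [Real.Gamma_one_half_eq, -one_div]
  | succ k ih =>
    have h0 : ((k + 1 : ℕ) : ℝ) + 1 / 2 = (k + 1 / 2) + 1 := by push_cast; ring
    rw [h0, Real.Gamma_add_one (by positivity), ih]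
    have h : ((2 * (k + 1)).factorial : ℝ) = (2 * k + 2) * (2 * k + 1) * ((2 * k).factorial : ℝ) := by
      have h1 : 2 * (k + 1) = (2 * k + 1) + 1 := by ring
      rw [h1, Nat.factorial_succ, Nat.factorial_succ]
      push_cast
      ring
    rw [h, Nat.factorial_succ]
    push_cast
    field_simp
    ring

lemma mom_even (k : ℕ) : ∫ y : ℝ, y ^ (2 * k) * Real.exp (-(y ^ 2 / 4)) =
    Real.sqrt (4 * Real.pi) * ((2 * k).factorial / k.factorial) := by
  have h1 : ∫ y : ℝ, y ^ (2 * k) * Real.exp (-(y ^ 2 / 4)) =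
      2 * ∫ y in Set.Ioi (0:ℝ), y ^ (2 * k) * Real.exp (-(y ^ 2 / 4)) := by
    rw [← integral_comp_abs (f := fun y : ℝ => y ^ (2 * k) * Real.exp (-(y ^ 2 / 4)))]
    congr 1
    ext y
    simp [pow_mul, sq_abs]
  have h2 : ∫ y in Set.Ioi (0:ℝ), y ^ (2 * k) * Real.exp (-(y ^ 2 / 4)) =
      ∫ y in Set.Ioi (0:ℝ), y ^ ((2 * k : ℝ)) * Real.exp (-(1/4) * y ^ (2:ℝ)) := by
    apply setIntegral_congr_fun measurableSet_Ioi
    intro y hy
    have e1 : y ^ ((2 * k : ℝ)) = y ^ (2 * k) := by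
      rw [← Real.rpow_natCast]
      push_cast
      rfl
    have e2 : y ^ (2:ℝ) = y ^ 2 := Real.rpow_two y
    simp only [e1, e2]
    congr 2
    ring
  have hk : (0:ℝ) ≤ k := Nat.cast_nonneg k
  rw [h1, h2, integral_rpow_mul_exp_neg_mul_rpow (by norm_num) (by linarith) (by norm_num)]
  have h3 : ((2 * k : ℝ) + 1) / 2 = k + 1 / 2 := by ring
  rw [h3, gam]
  have h4 : (1 / 4 : ℝ) ^ (-((2 * k : ℝ) + 1) / 2) = 2 * 4 ^ k := by
    have h5 : -((2 * k : ℝ) + 1) / 2 = -(k + 1 / 2) := by ring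
    rw [h5, one_div, Real.inv_rpow (by norm_num), Real.rpow_neg (by norm_num), inv_inv, Real.rpow_add (by norm_num),
      Real.rpow_natCast]
    have h6 : (4 : ℝ) ^ (1 / 2 : ℝ) = 2 := by
      rw [← Real.sqrt_eq_rpow]
      rw [show (4 : ℝ) = 2 ^ 2 by norm_num]
      exact Real.sqrt_sq (by norm_num)
    rw [h6]
    ring
  rw [h4]
  have h7 : Real.sqrt (4 * Real.pi) = 2 * Real.sqrt Real.pi := by
    rw [Real.sqrt_mul (by norm_num), show (4 : ℝ) = 2 ^ 2 by norm_num, Real.sqrt_sq (by norm_num)]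
  rw [h7]
  field_simp

lemma mom_odd (n : ℕ) (hn : Odd n) : ∫ y : ℝ, y ^ n * Real.exp (-(y ^ 2 / 4)) = 0 := by
  have h := integral_neg_eq_self (fun y : ℝ => y ^ n * Real.exp (-(y ^ 2 / 4))) volume
  have h2 : (fun y : ℝ => (-y) ^ n * Real.exp (-((-y) ^ 2 / 4))) = fun y : ℝ => -(y ^ n * Real.exp (-(y ^ 2 / 4))) := by
    ext y
    rw [hn.neg_pow, neg_sq]
    ring
  rw [h2, integral_neg] at h
  linarith

/-- global bound of an entire function -/
lemma glob (f : ℂ → ℂ) (hf : Differentiable ℂ f) (hb : ∃ R : ℝ, ∀ z : ℂ, R ≤ ‖z‖ → ‖f z‖ ≤ Real.exp (‖z‖ ^ (3 / 2 : ℝ))) :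
    ∃ M : ℝ, 0 < M ∧ ∀ w : ℂ, ‖f w‖ ≤ M * Real.exp (‖w‖ ^ 2 / 64) := by
  obtain ⟨R, hR⟩ := hb
  obtain ⟨M, hM⟩ := (isCompact_closedBall (0 : ℂ) R).exists_bound_of_continuousOn hf.continuous.continuousOn
  have h0 : ∀ a : ℝ, 0 ≤ a → a ^ (3 / 2 : ℝ) ≤ a ^ 2 / 64 + 262144 := by
    intro a ha
    rcases le_or_gt a 4096 with h | h
    · have h1 : a ^ (3 / 2 : ℝ) ≤ (4096 : ℝ) ^ (3 / 2 : ℝ) := Real.rpow_le_rpow ha h (by norm_num)
      have h2 : (4096 : ℝ) ^ (3 / 2 : ℝ) = 262144 := by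
        rw [show (4096 : ℝ) = 64 ^ (2 : ℝ) by norm_num, ← Real.rpow_mul (by norm_num)]
        norm_num
      have h3 : 0 ≤ a ^ 2 / 64 := by positivity
      linarith
    · have h1 : a ^ (3 / 2 : ℝ) = a ^ (2 : ℝ) * (a ^ (1 / 2 : ℝ))⁻¹ := by
        rw [← Real.rpow_neg ha, ← Real.rpow_add (by linarith)]
        norm_num
      have h2 : (64 : ℝ) ≤ a ^ (1 / 2 : ℝ) := by
        have h3 : (4096 : ℝ) ^ (1 / 2 : ℝ) ≤ a ^ (1 / 2 : ℝ) := Real.rpow_le_rpow (by norm_num) h.le (by norm_num)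
        have h4 : (4096 : ℝ) ^ (1 / 2 : ℝ) = 64 := by
          rw [show (4096 : ℝ) = 64 ^ (2 : ℝ) by norm_num, ← Real.rpow_mul (by norm_num)]
          norm_num
        linarith
      rw [h1, Real.rpow_two]
      have h5 : (a ^ (1 / 2 : ℝ))⁻¹ ≤ 64⁻¹ := inv_anti₀ (by norm_num) h2
      have h6 := mul_le_mul_of_nonneg_left h5 (sq_nonneg a)
      linarith
  refine ⟨|M| + Real.exp 262144, by positivity, fun w => ?_⟩
  have hw := norm_nonneg w
  have e1 : 1 ≤ Real.exp (‖w‖ ^ 2 / 64) := Real.one_le_exp (by positivity)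
  rcases le_or_gt R ‖w‖ with h | h
  · refine (hR w h).trans ?_
    calc Real.exp (‖w‖ ^ (3 / 2 : ℝ)) ≤ Real.exp (‖w‖ ^ 2 / 64 + 262144) := Real.exp_le_exp.mpr (h0 _ hw)
      _ = Real.exp 262144 * Real.exp (‖w‖ ^ 2 / 64) := by rw [Real.exp_add, mul_comm]
      _ ≤ _ := mul_le_mul_of_nonneg_right (by linarith [abs_nonneg M]) (by positivity)
  · have h1 := hM w (by simpa using h.le)
    have h2 : M ≤ |M| := le_abs_self M
    have h3 := Real.exp_pos 262144
    have h4 := abs_nonneg M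
    calc ‖f w‖ ≤ (|M| + Real.exp 262144) * 1 := by linarith
      _ ≤ _ := mul_le_mul_of_nonneg_left e1 (by positivity)

/-- the Taylor terms -/
lemma taylor_term (f : ℂ → ℂ) (hf : Differentiable ℂ f) (M : ℝ) (hM0 : 0 < M)
    (hM : ∀ w : ℂ, ‖f w‖ ≤ M * Real.exp (‖w‖ ^ 2 / 64)) (z : ℂ) (n : ℕ) (y : ℝ) :
    ‖((n.factorial : ℂ))⁻¹ * (((y : ℂ) * Complex.I) ^ n * iteratedDeriv n f z)‖ ≤
      M * Real.exp (‖z‖ ^ 2 / 32) * Real.exp (y ^ 2 / 8) * (1 / 2) ^ n := by
  rcases eq_or_ne y 0 with h0 | h0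
  · subst h0
    rcases Nat.eq_zero_or_pos n with hn | hn
    · subst hn
      simp only [Nat.factorial_zero, Nat.cast_one, inv_one, pow_zero, one_mul, iteratedDeriv_zero, mul_one]
      have h1 := hM z
      have h2 : Real.exp (‖z‖ ^ 2 / 64) ≤ Real.exp (‖z‖ ^ 2 / 32) := by
        apply Real.exp_le_exp.mpr
        have : 0 ≤ ‖z‖ ^ 2 := by positivity
        linarith
      have h3 : Real.exp ((0 : ℝ) ^ 2 / 8) = 1 := by norm_num
      rw [h3, mul_one]
      exact h1.trans (mul_le_mul_of_nonneg_left h2 hM0.le)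
    · have h1 : (((0 : ℝ) : ℂ) * Complex.I) ^ n = 0 := by
        rw [Complex.ofReal_zero, zero_mul, zero_pow hn.ne']
      rw [h1, zero_mul, mul_zero, norm_zero]
      positivity
  · set r : ℝ := 2 * |y| with hr
    have r0 : 0 < r := by
      have := abs_pos.mpr h0
      linarith
    set C : ℝ := M * Real.exp (‖z‖ ^ 2 / 32) * Real.exp (y ^ 2 / 8) with hC
    have hs : ∀ w ∈ Metric.sphere z r, ‖f w‖ ≤ C := by
      intro w hw
      refine (hM w).trans ?_
      rw [hC, mul_assoc, ← Real.exp_add]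
      apply mul_le_mul_of_nonneg_left _ hM0.le
      apply Real.exp_le_exp.mpr
      have h1 : ‖w - z‖ = r := by simpa [dist_eq_norm] using hw
      have h2 : ‖w‖ ≤ ‖z‖ + r := by
        calc ‖w‖ = ‖z + (w - z)‖ := by ring_nf
          _ ≤ ‖z‖ + ‖w - z‖ := norm_add_le _ _
          _ = _ := by rw [h1]
      have h3 : ‖w‖ ^ 2 ≤ (‖z‖ + r) ^ 2 := pow_le_pow_left₀ (norm_nonneg _) h2 2
      have h4 : r ^ 2 = 4 * y ^ 2 := by rw [hr, mul_pow, sq_abs]; ring
      nlinarith [sq_nonneg (‖z‖ - r)]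
    have hc := Complex.norm_iteratedDeriv_le_of_forall_mem_sphere_norm_le n r0 hf.diffContOnCl hs
    have hfac : (0 : ℝ) < (n.factorial : ℝ) := by positivity
    rw [norm_mul, norm_mul, norm_inv, Complex.norm_natCast, norm_pow, norm_mul, Complex.norm_I, mul_one, Complex.norm_real,
      Real.norm_eq_abs]
    have hy : |y| = r / 2 := by rw [hr]; ring
    rw [hy]
    calc (n.factorial : ℝ)⁻¹ * ((r / 2) ^ n * ‖iteratedDeriv n f z‖)
        ≤ (n.factorial : ℝ)⁻¹ * ((r / 2) ^ n * (n.factorial * C / r ^ n)) := by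
          gcongr
      _ = C * (1 / 2) ^ n := by
          rw [div_pow, div_pow]
          field_simp
          try ring

theorem t_INT : S_INT := by
  intro f hf hb z
  obtain ⟨M, hM0, hM⟩ := glob f hf hb
  set C : ℝ := M * Real.exp (‖z‖ ^ 2 / 32) with hC
  have hC0 : 0 < C := by positivity
  have hI : Integrable (fun y : ℝ => Real.exp (-(1/8) * y ^ 2)) := integrable_exp_neg_mul_sq (by norm_num)
  have hcont : Continuous fun y : ℝ => ((Real.exp (-(y ^ 2 / 4)) : ℝ) : ℂ) * f (z + y * Complex.I) := by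
    have := hf.continuous
    fun_prop
  set F : ℕ → ℝ → ℂ := fun n y => ((Real.exp (-(y ^ 2 / 4)) : ℝ) : ℂ) *
    (((n.factorial : ℂ))⁻¹ * (((y : ℂ) * Complex.I) ^ n * iteratedDeriv n f z)) with hF
  have hFb : ∀ n y, ‖F n y‖ ≤ C * Real.exp (-(1/8) * y ^ 2) * (1 / 2) ^ n := by
    intro n y
    simp only [hF]
    rw [norm_mul, Complex.norm_real, Real.norm_eq_abs, abs_of_pos (Real.exp_pos _)]
    calc Real.exp (-(y ^ 2 / 4)) * ‖((n.factorial : ℂ))⁻¹ * (((y : ℂ) * Complex.I) ^ n * iteratedDeriv n f z)‖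
        ≤ Real.exp (-(y ^ 2 / 4)) * (C * Real.exp (y ^ 2 / 8) * (1 / 2) ^ n) :=
          mul_le_mul_of_nonneg_left (taylor_term f hf M hM0 hM z n y) (Real.exp_pos _).le
      _ = C * (Real.exp (-(y ^ 2 / 4)) * Real.exp (y ^ 2 / 8)) * (1 / 2) ^ n := by ring
      _ = _ := by
          rw [← Real.exp_add]
          congr 3
          ring
  have hlim : ∀ y : ℝ, HasSum (fun n => F n y) (((Real.exp (-(y ^ 2 / 4)) : ℝ) : ℂ) * f (z + y * Complex.I)) := by
    intro y
    have h1 := Complex.hasSum_taylorSeries_of_entire hf z (z + y * Complex.I)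
    simp only [smul_eq_mul, add_sub_cancel_left] at h1
    exact h1.mul_left _
  have hgeo : HasSum (fun n : ℕ => ((1 : ℝ) / 2) ^ n) 2 := hasSum_geometric_two
  have hsum : ∀ y : ℝ, HasSum (fun n : ℕ => C * Real.exp (-(1/8) * y ^ 2) * (1 / 2) ^ n) (C * Real.exp (-(1/8) * y ^ 2) * 2) :=
    fun y => hgeo.mul_left _
  have hint : Integrable (fun y : ℝ => ((Real.exp (-(y ^ 2 / 4)) : ℝ) : ℂ) * f (z + y * Complex.I)) := by
    refine Integrable.mono' ((hI.const_mul C).mul_const 2) hcont.aestronglyMeasurable (Eventually.of_forall fun y => ?_)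
    rw [← (hlim y).tsum_eq]
    exact tsum_of_norm_bounded (hsum y) fun n => hFb n y
  refine ⟨hint, ?_⟩
  have hmain := hasSum_integral_of_dominated_convergence (μ := volume) (F := F)
    (f := fun y : ℝ => ((Real.exp (-(y ^ 2 / 4)) : ℝ) : ℂ) * f (z + y * Complex.I))
    (fun n y => C * Real.exp (-(1/8) * y ^ 2) * (1 / 2) ^ n)
    (fun n => by
      apply Continuous.aestronglyMeasurable
      simp only [hF]
      fun_prop)
    (fun n => Eventually.of_forall fun y => hFb n y)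
    (Eventually.of_forall fun y => (hsum y).summable)
    (by
      have : (fun y : ℝ => ∑' n : ℕ, C * Real.exp (-(1/8) * y ^ 2) * (1 / 2) ^ n) = fun y : ℝ => C * Real.exp (-(1/8) * y ^ 2) * 2 :=
        funext fun y => (hsum y).tsum_eq
      rw [this]
      exact (hI.const_mul C).mul_const 2)
    (Eventually.of_forall hlim)
  have hFn : ∀ n, ∫ y, F n y = ((n.factorial : ℂ))⁻¹ * (Complex.I ^ n * iteratedDeriv n f z) *
      ((∫ y : ℝ, y ^ n * Real.exp (-(y ^ 2 / 4)) : ℝ) : ℂ) := by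
    intro n
    rw [← integral_complex_ofReal, ← integral_const_mul]
    congr 1
    ext y
    simp only [hF]
    push_cast
    ring
  simp only [hFn] at hmain
  have hinj : Function.Injective (fun k : ℕ => 2 * k) := fun a b h => by
    simp only at h
    omega
  have h2 := (hinj.hasSum_iff (f := fun n : ℕ => ((n.factorial : ℂ))⁻¹ * (Complex.I ^ n * iteratedDeriv n f z) *
      ((∫ y : ℝ, y ^ n * Real.exp (-(y ^ 2 / 4)) : ℝ) : ℂ)) (a := ∫ y : ℝ, ((Real.exp (-(y ^ 2 / 4)) : ℝ) : ℂ) * f (z + y * Complex.I))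
    (by
      intro n hn
      have : Odd n := by
        rw [← Nat.not_even_iff_odd]
        intro ⟨k, hk⟩
        exact hn ⟨k, by simp only; omega⟩
      rw [mom_odd n this]
      simp)).mpr hmain
  have h3 := h2.mul_left ((1 / Real.sqrt (4 * Real.pi) : ℝ) : ℂ)
  rw [← h3.tsum_eq]
  apply tsum_congr
  intro k
  simp only [Function.comp]
  rw [mom_even k, pow_mul, Complex.I_sq]
  have hs : (0 : ℝ) < Real.sqrt (4 * Real.pi) := Real.sqrt_pos.mpr (by positivity)
  have hs' : ((Real.sqrt (4 * Real.pi) : ℝ) : ℂ) ≠ 0 := by exact_mod_cast hs.ne'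
  have hf1 : ((2 * k).factorial : ℂ) ≠ 0 := by exact_mod_cast (Nat.factorial_ne_zero (2 * k))
  have hf2 : (k.factorial : ℂ) ≠ 0 := by exact_mod_cast (Nat.factorial_ne_zero k)
  push_cast
  field_simp

end Pool.Agent.Q198.KK
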