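import Pool.Agent.Q260.KK.Spec

set_option autoImplicit false

namespace Pool.Agent.Q198.KK

open Filter Topology
open Pool.Agent.Q260.KK

lemma log_bound (t α : ℝ) (ht : 0 ≤ t) (h0 : 0 < α) (h1 : α ≤ 1) : Real.log (1 + t) ≤ t ^ α / α := by
  have h2 : (1 + t) ^ α ≤ 1 + t ^ α := by
    have := Real.rpow_add_le_add_rpow (p := α) (a := 1) (b := t) zero_le_one ht h0.le h1
    simpa using this
  have h3 : α * Real.log (1 + t) ≤ t ^ α := by
    have h4 : Real.log ((1 + t) ^ α) ≤ t ^ α := by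
      have h5 : 0 < (1 + t) ^ α := Real.rpow_pos_of_pos (by linarith) α
      have := Real.log_le_sub_one_of_pos h5
      linarith
    rwa [Real.log_rpow (by linarith)] at h4
  rw [le_div_iff₀ h0]
  linarith

lemma rn_pos (n : ℕ) : (0 : ℝ) < (rn n : ℝ) := by
  unfold rn
  positivity

lemma xn_pos (n : ℕ) : (0 : ℝ) < (xn n : ℝ) := by
  unfold xn
  have := rn_pos n
  push_cast
  positivity

/-- the factor is bounded -/
lemma fac_le (n : ℕ) (z : ℂ) (δ : ℝ) (h0 : 0 < δ) (h1 : δ ≤ 1) :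
    ‖fac n z‖ ≤ Real.exp (2 * ((n + 1 : ℝ) * (rn n : ℝ) ^ (-δ)) * ‖z‖ ^ (1 + δ) + 4 * ((xn n : ℝ)⁻¹ * ‖z‖)) := by
  have hr := rn_pos n
  have hx := xn_pos n
  have hz := norm_nonneg z
  have hA : ‖(1 - z ^ 2 / (rn n : ℂ) ^ 2) ^ (mn n)‖ ≤ Real.exp (2 * ((n + 1 : ℝ) * (rn n : ℝ) ^ (-δ)) * ‖z‖ ^ (1 + δ)) := by
    rw [norm_pow]
    have e1 : ‖1 - z ^ 2 / (rn n : ℂ) ^ 2‖ ≤ 1 + (‖z‖ / rn n) ^ 2 := by
      calc ‖1 - z ^ 2 / (rn n : ℂ) ^ 2‖ ≤ ‖(1 : ℂ)‖ + ‖z ^ 2 / (rn n : ℂ) ^ 2‖ := norm_sub_le _ _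
        _ = 1 + (‖z‖ / rn n) ^ 2 := by
          rw [norm_one, norm_div, norm_pow, norm_pow, Complex.norm_natCast, div_pow]
    have e2 : (0 : ℝ) ≤ (‖z‖ / rn n) ^ 2 := by positivity
    have e3 := log_bound ((‖z‖ / rn n) ^ 2) ((1 + δ) / 2) e2 (by linarith) (by linarith)
    have e4 : 1 + (‖z‖ / rn n) ^ 2 ≤ Real.exp (((‖z‖ / rn n) ^ 2) ^ ((1 + δ) / 2) / ((1 + δ) / 2)) := by
      rw [← Real.log_le_iff_le_exp (by linarith)]
      exact e3
    have e5 : ((‖z‖ / rn n) ^ 2) ^ ((1 + δ) / 2) = (‖z‖ / rn n) ^ (1 + δ) := by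
      rw [← Real.rpow_natCast (‖z‖ / rn n) 2, ← Real.rpow_mul (by positivity)]
      congr 1
      push_cast
      ring
    rw [e5] at e4
    calc ‖1 - z ^ 2 / (rn n : ℂ) ^ 2‖ ^ (mn n) ≤ (Real.exp ((‖z‖ / rn n) ^ (1 + δ) / ((1 + δ) / 2))) ^ (mn n) :=
          pow_le_pow_left₀ (norm_nonneg _) (e1.trans e4) _
      _ = Real.exp ((mn n : ℝ) * ((‖z‖ / rn n) ^ (1 + δ) / ((1 + δ) / 2))) := by
          rw [← Real.exp_nat_mul]
      _ ≤ _ := by
          apply Real.exp_le_exp.mpr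
          rw [Real.div_rpow hz hr.le]
          have e6 : (rn n : ℝ) ^ (1 + δ) = rn n * (rn n : ℝ) ^ δ := by
            rw [Real.rpow_add hr, Real.rpow_one]
          have e7 : (rn n : ℝ) ^ (-δ) = ((rn n : ℝ) ^ δ)⁻¹ := Real.rpow_neg hr.le δ
          rw [e6, e7]
          have e8 : (0 : ℝ) < (rn n : ℝ) ^ δ := Real.rpow_pos_of_pos hr δ
          have e9 : (0 : ℝ) ≤ ‖z‖ ^ (1 + δ) := Real.rpow_nonneg hz _
          unfold mn
          push_cast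
          have e10 : (n + 1 : ℝ) * rn n * (‖z‖ ^ (1 + δ) / (rn n * (rn n : ℝ) ^ δ) / ((1 + δ) / 2))
              = (2 / (1 + δ)) * ((n + 1 : ℝ) * ((rn n : ℝ) ^ δ)⁻¹ * ‖z‖ ^ (1 + δ)) := by
            field_simp
          rw [e10]
          have e11 : 2 / (1 + δ) ≤ 2 := by
            rw [div_le_iff₀ (by linarith)]
            linarith
          have e12 : 0 ≤ (n + 1 : ℝ) * ((rn n : ℝ) ^ δ)⁻¹ * ‖z‖ ^ (1 + δ) := by positivity
          nlinarith [mul_le_mul_of_nonneg_right e11 e12]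
  have hB : ‖qf n z‖ ≤ Real.exp (4 * ((xn n : ℝ)⁻¹ * ‖z‖)) := by
    unfold qf
    have q1 : ∀ s : ℂ, ‖s‖ = (xn n : ℝ) → ‖(z - s) ^ 2 + 4‖ ≤ (‖z‖ + xn n) ^ 2 + 4 := by
      intro s hs
      calc ‖(z - s) ^ 2 + 4‖ ≤ ‖(z - s) ^ 2‖ + ‖(4 : ℂ)‖ := norm_add_le _ _
        _ ≤ (‖z‖ + xn n) ^ 2 + 4 := by
          rw [norm_pow]
          have h4 : ‖(4 : ℂ)‖ = 4 := by norm_num
          rw [h4]
          have h5 : ‖z - s‖ ≤ ‖z‖ + xn n := by
            rw [← hs]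
            exact norm_sub_le _ _
          have h6 := pow_le_pow_left₀ (norm_nonneg (z - s)) h5 2
          linarith
    have q2 := q1 (xn n : ℂ) (Complex.norm_natCast _)
    have q3 := q1 (-(xn n : ℂ)) (by rw [norm_neg, Complex.norm_natCast])
    rw [sub_neg_eq_add] at q3
    have q4 : ‖((xn n : ℂ) ^ 2 + 4) ^ 2‖ = ((xn n : ℝ) ^ 2 + 4) ^ 2 := by
      rw [norm_pow]
      congr 1
      have : ((xn n : ℂ) ^ 2 + 4) = (((xn n : ℝ) ^ 2 + 4 : ℝ) : ℂ) := by push_cast; rfl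
      rw [this, Complex.norm_real, Real.norm_eq_abs, abs_of_pos (by positivity)]
    rw [norm_div, norm_mul, q4]
    have q5 : (‖z‖ + xn n) ^ 2 + 4 ≤ ((xn n : ℝ) ^ 2 + 4) * (Real.exp (2 * ((xn n : ℝ)⁻¹ * ‖z‖))) := by
      have h1 : 1 + (xn n : ℝ)⁻¹ * ‖z‖ ≤ Real.exp ((xn n : ℝ)⁻¹ * ‖z‖) := by
        linarith [Real.add_one_le_exp ((xn n : ℝ)⁻¹ * ‖z‖)]
      have h2 : (1 + (xn n : ℝ)⁻¹ * ‖z‖) ^ 2 ≤ Real.exp (2 * ((xn n : ℝ)⁻¹ * ‖z‖)) := by
        have := pow_le_pow_left₀ (by positivity) h1 2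
        rw [← Real.exp_nat_mul] at this
        exact_mod_cast this
      have h3 : (‖z‖ + xn n) ^ 2 + 4 ≤ ((xn n : ℝ) ^ 2 + 4) * (1 + (xn n : ℝ)⁻¹ * ‖z‖) ^ 2 := by
        have h4 : (‖z‖ + xn n) ^ 2 = (xn n : ℝ) ^ 2 * (1 + (xn n : ℝ)⁻¹ * ‖z‖) ^ 2 := by
          field_simp
          ring
        rw [h4, add_mul]
        have h5 : 1 ≤ (1 + (xn n : ℝ)⁻¹ * ‖z‖) ^ 2 := by
          have : 0 ≤ (xn n : ℝ)⁻¹ * ‖z‖ := by positivity
          nlinarith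
        linarith
      calc _ ≤ _ := h3
        _ ≤ _ := mul_le_mul_of_nonneg_left h2 (by positivity)
    rw [div_le_iff₀ (by positivity)]
    calc ‖(z - xn n) ^ 2 + 4‖ * ‖(z + xn n) ^ 2 + 4‖
        ≤ (((xn n : ℝ) ^ 2 + 4) * (Real.exp (2 * ((xn n : ℝ)⁻¹ * ‖z‖)))) * (((xn n : ℝ) ^ 2 + 4) * (Real.exp (2 * ((xn n : ℝ)⁻¹ * ‖z‖)))) :=
          mul_le_mul (q2.trans q5) (q3.trans q5) (norm_nonneg _) (by positivity)
      _ = Real.exp (4 * ((xn n : ℝ)⁻¹ * ‖z‖)) * ((xn n : ℝ) ^ 2 + 4) ^ 2 := by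
          have : Real.exp (4 * ((xn n : ℝ)⁻¹ * ‖z‖)) = Real.exp (2 * ((xn n : ℝ)⁻¹ * ‖z‖)) * Real.exp (2 * ((xn n : ℝ)⁻¹ * ‖z‖)) := by
            rw [← Real.exp_add]
            congr 1
            ring
          rw [this]
          ring
  unfold fac
  rw [norm_mul, Real.exp_add]
  exact mul_le_mul hA hB (norm_nonneg _) (Real.exp_pos _).le

lemma summ (δ : ℝ) (h0 : 0 < δ) : Summable fun n : ℕ => (n + 1 : ℝ) * (rn n : ℝ) ^ (-δ) := by
  have hl : 0 < δ * Real.log 2 := mul_pos h0 (Real.log_pos (by norm_num))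
  have hs : Summable fun n : ℕ => (δ * Real.log 2)⁻¹ * ((1 / 2 : ℝ) ^ (n + 1)) := by
    apply Summable.mul_left
    exact (summable_nat_add_iff 1).mpr (summable_geometric_of_lt_one (by norm_num) (by norm_num))
  refine Summable.of_nonneg_of_le (fun n => ?_) (fun n => ?_) hs
  · have := rn_pos n
    positivity
  · have hr := rn_pos n
    have h1 : (rn n : ℝ) ^ δ = Real.exp (δ * Real.log 2 * 4 ^ (n + 1)) := by
      rw [Real.rpow_def_of_pos hr]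
      unfold rn
      push_cast
      rw [Real.log_pow]
      push_cast
      congr 1
      ring
    have h2 : δ * Real.log 2 * 4 ^ (n + 1) ≤ (rn n : ℝ) ^ δ := by
      rw [h1]
      linarith [Real.add_one_le_exp (δ * Real.log 2 * 4 ^ (n + 1))]
    rw [Real.rpow_neg hr.le]
    have h3 : (n + 1 : ℝ) ≤ 2 ^ (n + 1) := by
      have := (Nat.lt_two_pow_self (n := n + 1)).le
      exact_mod_cast this
    have h4 : ((rn n : ℝ) ^ δ)⁻¹ ≤ (δ * Real.log 2 * 4 ^ (n + 1))⁻¹ := inv_anti₀ (by positivity) h2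
    calc (n + 1 : ℝ) * ((rn n : ℝ) ^ δ)⁻¹ ≤ 2 ^ (n + 1) * (δ * Real.log 2 * 4 ^ (n + 1))⁻¹ :=
          mul_le_mul h3 h4 (by positivity) (by positivity)
      _ = (δ * Real.log 2)⁻¹ * ((1 / 2 : ℝ) ^ (n + 1)) := by
          rw [mul_inv, mul_left_comm, one_div, inv_pow]
          congr 1
          have : (4 : ℝ) ^ (n + 1) = 2 ^ (n + 1) * 2 ^ (n + 1) := by
            rw [← mul_pow]
            norm_num
          rw [this]
          field_simp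

lemma summx : Summable fun n : ℕ => ((xn n : ℝ)⁻¹) := by
  refine Summable.of_nonneg_of_le (fun n => ?_) (fun n => ?_) (summ 1 one_pos)
  · have := xn_pos n
    positivity
  · have hr := rn_pos n
    rw [Real.rpow_neg_one]
    unfold xn
    push_cast
    have h1 : (1 : ℝ) ≤ rn n := by
      unfold rn
      exact_mod_cast Nat.one_le_two_pow
    have h2 : ((rn n : ℝ) ^ 2)⁻¹ ≤ (rn n : ℝ)⁻¹ := by
      apply inv_anti₀ hr
      nlinarith
    have h3 : (rn n : ℝ)⁻¹ ≤ (n + 1 : ℝ) * (rn n : ℝ)⁻¹ := by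
      have : (0 : ℝ) < (rn n : ℝ)⁻¹ := by positivity
      have h5 : (0 : ℝ) ≤ n := Nat.cast_nonneg n
      nlinarith
    linarith

theorem t_UP : S_UP := by
  intro ε hε
  set δ : ℝ := min (ε / 2) 1 with hδ
  have d0 : 0 < δ := lt_min (by linarith) one_pos
  have d1 : δ ≤ 1 := min_le_right _ _
  have d2 : δ ≤ ε / 2 := min_le_left _ _
  set A : ℝ := ∑' n : ℕ, (n + 1 : ℝ) * (rn n : ℝ) ^ (-δ) with hA
  set B : ℝ := ∑' n : ℕ, ((xn n : ℝ)⁻¹) with hB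
  have sA := summ δ d0
  have sB := summx
  have A0 : 0 ≤ A := tsum_nonneg fun n => by
    have := rn_pos n
    positivity
  have B0 : 0 ≤ B := tsum_nonneg fun n => by
    have := xn_pos n
    positivity
  have hfin : ∀ (s : Finset ℕ) (z : ℂ), ‖∏ n ∈ s, fac n z‖ ≤ Real.exp (2 * A * ‖z‖ ^ (1 + δ) + 4 * (B * ‖z‖)) := by
    intro s z
    have hz := norm_nonneg z
    have hz' : 0 ≤ ‖z‖ ^ (1 + δ) := Real.rpow_nonneg hz _
    calc ‖∏ n ∈ s, fac n z‖ = ∏ n ∈ s, ‖fac n z‖ := norm_prod _ _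
      _ ≤ ∏ n ∈ s, Real.exp (2 * ((n + 1 : ℝ) * (rn n : ℝ) ^ (-δ)) * ‖z‖ ^ (1 + δ) + 4 * ((xn n : ℝ)⁻¹ * ‖z‖)) :=
          Finset.prod_le_prod (fun _ _ => norm_nonneg _) fun n _ => fac_le n z δ d0 d1
      _ = Real.exp (∑ n ∈ s, (2 * ((n + 1 : ℝ) * (rn n : ℝ) ^ (-δ)) * ‖z‖ ^ (1 + δ) + 4 * ((xn n : ℝ)⁻¹ * ‖z‖))) :=
          (Real.exp_sum _ _).symm
      _ ≤ _ := by
          apply Real.exp_le_exp.mpr
          rw [Finset.sum_add_distrib, ← Finset.sum_mul, ← Finset.mul_sum, ← Finset.mul_sum, ← Finset.sum_mul]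
          have u1 : ∑ n ∈ s, ((n + 1 : ℝ) * (rn n : ℝ) ^ (-δ)) ≤ A :=
            sA.sum_le_tsum s fun n _ => by
              have := rn_pos n
              positivity
          have u2 : ∑ n ∈ s, ((xn n : ℝ)⁻¹) ≤ B :=
            sB.sum_le_tsum s fun n _ => by
              have := xn_pos n
              positivity
          have u3 := mul_le_mul_of_nonneg_right u1 hz'
          have u4 := mul_le_mul_of_nonneg_right u2 hz
          linarith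
  have hff : ∀ z : ℂ, ‖ff z‖ ≤ Real.exp (2 * A * ‖z‖ ^ (1 + δ) + 4 * (B * ‖z‖)) := by
    intro z
    unfold ff
    by_cases hm : Multipliable fun n => fac n z
    · have h1 := hm.hasProd.norm
      exact le_of_tendsto' (hm.hasProd.norm) fun s => by
        rw [← norm_prod]
        exact hfin s z
    · rw [tprod_eq_one_of_not_multipliable hm, norm_one]
      exact Real.one_le_exp (by positivity)
  have hlim : ∀ᶠ r : ℝ in atTop, 2 * A + 4 * B ≤ r ^ (ε - δ) :=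
    (tendsto_rpow_atTop (by linarith : 0 < ε - δ)).eventually_ge_atTop _
  obtain ⟨R, hR⟩ := Filter.eventually_atTop.mp (hlim.and (eventually_ge_atTop (1 : ℝ)))
  refine ⟨R, fun z hz => ?_⟩
  obtain ⟨h1, h2⟩ := hR ‖z‖ hz
  refine (hff z).trans (Real.exp_le_exp.mpr ?_)
  have h3 : ‖z‖ ≤ ‖z‖ ^ (1 + δ) := by
    have := Real.rpow_le_rpow_of_exponent_le h2 (by linarith : (1 : ℝ) ≤ 1 + δ)
    rwa [Real.rpow_one] at this
  have h4 : ‖z‖ ^ (1 + ε) = ‖z‖ ^ (ε - δ) * ‖z‖ ^ (1 + δ) := by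
    rw [← Real.rpow_add (by linarith)]
    congr 1
    ring
  rw [h4]
  have h5 : 0 ≤ ‖z‖ ^ (1 + δ) := Real.rpow_nonneg (norm_nonneg z) _
  have h6 := mul_le_mul_of_nonneg_right h1 h5
  have h7 := mul_le_mul_of_nonneg_left h3 B0
  nlinarith

end Pool.Agent.Q198.KK
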